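import Mathlib

/-!
# Partition regularity of `x - 2y = p(z)`

For an integer polynomial `p` with `p(0) = 0` the equation `x - 2y = p(z)` is partition regular
over the positive integers if and only if `p = t`, or `p = -2t`, or it has a constant solution
`x = y = z = n`, that is, `p(n) = -n` for some positive integer `n`.
-/

set_option autoImplicit false

namespace Pool.Agent.Results.MP_0ef770_co.Classification

open Polynomial Filter

/-- The equation `x - 2y = p(z)` is partition regular over the positive integers: every colouring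
with finitely many colours has a solution in positive integers with `x`, `y`, `z` of one colour. -/
def PartitionRegular (p : ℤ[X]) : Prop :=
  ∀ (r : ℕ) (c : ℕ → Fin r), ∃ x y z : ℕ, 0 < x ∧ 0 < y ∧ 0 < z ∧ c x = c y ∧ c y = c z ∧
    (x : ℤ) - 2 * (y : ℤ) = p.eval (z : ℤ)

theorem floor_ne {s t : ℝ} {K : ℕ} (h1 : 1 ≤ s - t) (h2 : s - t ≤ K) :
    ((⌊s⌋ : ℤ) : ZMod (K + 1)) ≠ ((⌊t⌋ : ℤ) : ZMod (K + 1)) := by
  intro h
  have a1 : ⌊t⌋ + 1 ≤ ⌊s⌋ := by
    rw [← Int.floor_add_one]; exact Int.floor_le_floor (by linarith)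
  have a2 : ⌊s⌋ ≤ ⌊t⌋ + (K : ℤ) := by
    have : ⌊t⌋ + (K : ℤ) = ⌊t + (K : ℝ)⌋ := by
      rw [Int.floor_add_natCast]
    rw [this]
    exact Int.floor_le_floor (by linarith)
  have h3 := (ZMod.intCast_eq_intCast_iff_dvd_sub _ _ _).1 h.symm
  have h4 : (0 : ℤ) < ⌊s⌋ - ⌊t⌋ := by linarith
  have h5 := Int.le_of_dvd h4 h3
  push_cast at h5
  linarith

/-- the scale of the two logarithmic colourings -/
noncomputable def β : ℝ := Real.log (3 / 2)

theorem β_pos : 0 < β := Real.log_pos (by norm_num)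

theorem ratio_ne {u v : ℝ} (hv : 0 < v) (h1 : 3 / 2 * v ≤ u) (h2 : u ≤ 4 * v) :
    ((⌊Real.log u / β⌋ : ℤ) : ZMod (4 + 1)) ≠ ((⌊Real.log v / β⌋ : ℤ) : ZMod (4 + 1)) := by
  have hu : 0 < u := by linarith
  have e : Real.log u / β - Real.log v / β = Real.log (u / v) / β := by
    rw [Real.log_div hu.ne' hv.ne']; ring
  apply floor_ne
  · rw [e, le_div_iff₀ β_pos, one_mul]
    apply Real.log_le_log (by norm_num)
    rw [le_div_iff₀ hv]; exact h1
  · rw [e, div_le_iff₀ β_pos]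
    have : Real.log (u / v) ≤ Real.log ((3 / 2 : ℝ) ^ 4) := by
      apply Real.log_le_log (by positivity)
      rw [div_le_iff₀ hv]
      norm_num
      linarith
    rw [Real.log_pow] at this
    exact this

theorem loglog_ne {D K : ℕ} (hK : Real.log ((D : ℝ) + 2) / β ≤ K) {z u : ℝ} (hz : 3 ≤ z)
    (h1 : z * √z ≤ u) (h2 : u ≤ z ^ (D + 2)) :
    ((⌊Real.log (Real.log u) / β⌋ : ℤ) : ZMod (K + 1)) ≠
      ((⌊Real.log (Real.log z) / β⌋ : ℤ) : ZMod (K + 1)) := by
  have hz0 : 0 < z := by linarith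
  have hlz : 0 < Real.log z := Real.log_pos (by linarith)
  have hs : 0 < √z := Real.sqrt_pos.2 hz0
  have hu : 0 < u := lt_of_lt_of_le (by positivity) h1
  have l1 : 3 / 2 * Real.log z ≤ Real.log u := by
    have := Real.log_le_log (by positivity) h1
    rw [Real.log_mul hz0.ne' hs.ne', Real.log_sqrt hz0.le] at this
    linarith
  have l2 : Real.log u ≤ ((D : ℝ) + 2) * Real.log z := by
    have := Real.log_le_log hu h2
    rw [Real.log_pow] at this
    push_cast at this
    exact this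
  have hlu : 0 < Real.log u := by linarith
  have e : Real.log (Real.log u) / β - Real.log (Real.log z) / β =
      Real.log (Real.log u / Real.log z) / β := by
    rw [Real.log_div hlu.ne' hlz.ne']; ring
  apply floor_ne
  · rw [e, le_div_iff₀ β_pos, one_mul]
    apply Real.log_le_log (by norm_num)
    rw [le_div_iff₀ hlz]; exact l1
  · refine le_trans ?_ hK
    rw [e]
    apply div_le_div_of_nonneg_right _ β_pos.le
    apply Real.log_le_log (by positivity)
    rw [div_le_iff₀ hlz]; exact l2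

theorem bounds (p : ℤ[X]) (hp : 2 ≤ p.natDegree) : ∃ Z : ℕ, 3 ≤ Z ∧ ∀ z : ℕ, Z ≤ z →
    2 * ((z : ℝ) * √z) ≤ |((p.eval (z : ℤ) : ℤ) : ℝ)| ∧
      3 * |((p.eval (z : ℤ) : ℤ) : ℝ)| ≤ (z : ℝ) ^ (p.natDegree + 2) := by
  set P : ℝ[X] := p.map (Int.castRingHom ℝ) with hP
  have hinj : Function.Injective (Int.castRingHom ℝ) := Int.cast_injective
  have hp0 : p ≠ 0 := by
    rintro rfl
    simp at hp
  have hdeg : P.degree = (X ^ p.natDegree : ℝ[X]).degree := by
    rw [degree_X_pow, hP, degree_map_eq_of_injective hinj, degree_eq_natDegree hp0]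
  have hlim := P.div_tendsto_atTop_leadingCoeff_div_of_degree_eq _ hdeg
  rw [leadingCoeff_X_pow, div_one, hP, leadingCoeff_map_of_injective hinj] at hlim
  have hlim2 := hlim.abs
  set a : ℝ := |(Int.castRingHom ℝ) p.leadingCoeff| with ha
  have ha1 : 1 ≤ a := by
    have h1 : p.leadingCoeff ≠ 0 := leadingCoeff_ne_zero.2 hp0
    have h2 : (1 : ℤ) ≤ |p.leadingCoeff| := Int.one_le_abs h1
    rw [ha]
    simp only [eq_intCast]
    exact_mod_cast h2
  have hev : ∀ᶠ x : ℝ in atTop,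
      |eval x (p.map (Int.castRingHom ℝ)) / eval x (X ^ p.natDegree : ℝ[X])| ∈
        Set.Ioo (1 / 2) (a + 1) :=
    hlim2 (Ioo_mem_nhds (by linarith) (by linarith))
  obtain ⟨B, hB⟩ := eventually_atTop.1 hev
  refine ⟨max (max ⌈B⌉₊ 16) ⌈3 * (a + 1)⌉₊, ?_, ?_⟩
  · have : 16 ≤ max (max ⌈B⌉₊ 16) ⌈3 * (a + 1)⌉₊ := le_trans (le_max_right _ _) (le_max_left _ _)
    omega
  · intro z hz
    have z1 : B ≤ (z : ℝ) := le_trans (Nat.le_ceil B)
      (by exact_mod_cast le_trans (le_trans (le_max_left _ _) (le_max_left _ _)) hz)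
    have z2 : (16 : ℝ) ≤ (z : ℝ) := by
      exact_mod_cast le_trans (le_trans (le_max_right _ _) (le_max_left _ _)) hz
    have z3 : 3 * (a + 1) ≤ (z : ℝ) := le_trans (Nat.le_ceil _)
      (by exact_mod_cast le_trans (le_max_right _ _) hz)
    have hz0 : (0 : ℝ) < z := by linarith
    have h := hB z z1
    have ev : eval (z : ℝ) (p.map (Int.castRingHom ℝ)) = ((p.eval (z : ℤ) : ℤ) : ℝ) := by
      have := eval_intCast_map (Int.castRingHom ℝ) p (z : ℤ)
      simpa using this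
    rw [ev, eval_pow, eval_X, abs_div, abs_of_pos (pow_pos hz0 _)] at h
    obtain ⟨h1, h2⟩ := h
    rw [lt_div_iff₀ (pow_pos hz0 _)] at h1
    rw [div_lt_iff₀ (pow_pos hz0 _)] at h2
    constructor
    · have hsq : 4 ≤ √(z : ℝ) := by
        apply Real.le_sqrt_of_sq_le; linarith
      have hs2 : √(z : ℝ) * √(z : ℝ) = z := Real.mul_self_sqrt hz0.le
      have hpow : (z : ℝ) ^ 2 ≤ (z : ℝ) ^ p.natDegree :=
        pow_le_pow_right₀ (by linarith) hp
      have h5 : 4 * ((z : ℝ) * √z) ≤ (z : ℝ) ^ 2 := by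
        have : (z : ℝ) ^ 2 = z * (√z * √z) := by rw [hs2]; ring
        rw [this]
        nlinarith [mul_nonneg hz0.le (mul_nonneg (Real.sqrt_nonneg (z : ℝ)) (sub_nonneg.2 hsq))]
      linarith
    · have : (z : ℝ) ^ (p.natDegree + 2) = (z : ℝ) ^ p.natDegree * (z * z) := by ring
      rw [this]
      have h6 : 3 * (a + 1) ≤ (z : ℝ) * z := by nlinarith
      have h7 : (0 : ℝ) < (z : ℝ) ^ p.natDegree := pow_pos hz0 _
      nlinarith



/-- van der Waerden's theorem with a bound, from Hales-Jewett -/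
theorem vdw (R L : ℕ) : ∃ M : ℕ, ∀ c : ℕ → Fin R, ∃ a d : ℕ, 0 < a ∧ 0 < d ∧ d ≤ M ∧ a ≤ M ∧
    ∀ j ≤ L, c (a + j * d) = c a := by
  obtain ⟨ι, _, hι⟩ := Combinatorics.Line.exists_mono_in_high_dimension (Fin (L + 1)) (Fin R)
  refine ⟨1 + Fintype.card ι * (L + 1), fun c => ?_⟩
  obtain ⟨l, γ, hγ⟩ := hι (fun v => c (1 + ∑ i, (v i : ℕ)))
  let fx : ι → ℕ := fun i => match l.idxFun i with
    | some y => (y : ℕ)
    | none => 0
  let ac : ι → ℕ := fun i => match l.idxFun i with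
    | some _ => 0
    | none => 1
  have hval : ∀ x : Fin (L + 1), ∀ i, ((l x i : Fin (L + 1)) : ℕ) = fx i + x * ac i := by
    intro x i
    simp only [Combinatorics.Line.apply_def, fx, ac]
    cases h : l.idxFun i <;> simp
  have hsum : ∀ x : Fin (L + 1), ∑ i, ((l x i : Fin (L + 1)) : ℕ) = ∑ i, fx i + x * ∑ i, ac i := by
    intro x
    rw [Finset.mul_sum, ← Finset.sum_add_distrib]
    exact Finset.sum_congr rfl (fun i _ => hval x i)
  have hac : ∀ i, ac i ≤ 1 := by
    intro i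
    simp only [ac]
    cases h : l.idxFun i <;> simp
  have hfx : ∀ i, fx i ≤ L := by
    intro i
    simp only [fx]
    cases h : l.idxFun i with
    | none => simp
    | some y => exact Nat.lt_succ_iff.1 y.2
  obtain ⟨i0, hi0⟩ := l.proper
  have hpos : 0 < ∑ i, ac i := by
    apply Finset.sum_pos' (fun i _ => Nat.zero_le _)
    exact ⟨i0, Finset.mem_univ _, by simp only [ac, hi0]; norm_num⟩
  have hd : ∑ i, ac i ≤ Fintype.card ι := by
    calc ∑ i, ac i ≤ ∑ _i : ι, 1 := Finset.sum_le_sum (fun i _ => hac i)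
      _ = _ := by simp
  have hf : ∑ i, fx i ≤ Fintype.card ι * L := by
    calc ∑ i, fx i ≤ ∑ _i : ι, L := Finset.sum_le_sum (fun i _ => hfx i)
      _ = _ := by simp
  refine ⟨1 + ∑ i, fx i, ∑ i, ac i, by omega, hpos, ?_, ?_, ?_⟩
  · nlinarith
  · nlinarith
  · intro j hj
    have h1 := hγ ⟨j, by omega⟩
    have h0 := hγ 0
    simp only at h1 h0
    rw [hsum] at h1 h0
    simp only [Fin.val_zero, zero_mul, add_zero] at h0
    rw [add_assoc, h1, h0]

/-- Brauer type theorem -/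
theorem brauer (α β R : ℕ) (hα : 0 < α) (r : ℕ) : ∃ N : ℕ, ∀ c : ℕ → Fin R,
    ∀ S : Finset (Fin R), S.card ≤ r → (∀ n, 0 < n → n ≤ N → c n ∈ S) →
    ∃ t z : ℕ, 0 < t ∧ 0 < z ∧ c (α * t) = c z ∧ c z = c (z + β * t) := by
  induction r with
  | zero =>
    refine ⟨1, fun c S hS h => ?_⟩
    have := h 1 one_pos le_rfl
    rw [Finset.card_eq_zero.1 (Nat.le_zero.1 hS)] at this
    simp at this
  | succ r ih =>
    obtain ⟨N, hN⟩ := ih
    obtain ⟨M, hM⟩ := vdw R (β * N)
    refine ⟨max M (α * M * N), fun c S hS h => ?_⟩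
    obtain ⟨a, d, ha, hd, hdM, haM, hmono⟩ := hM c
    by_cases hex : ∃ i, 0 < i ∧ i ≤ N ∧ c (α * d * i) = c a
    · obtain ⟨i, hi0, hiN, hi⟩ := hex
      refine ⟨d * i, a, by positivity, ha, by rw [← mul_assoc]; exact hi, ?_⟩
      have := hmono (β * i) (Nat.mul_le_mul_left _ hiN)
      rw [← this]
      congr 1
      ring
    · push Not at hex
      obtain ⟨t, z, ht, hz, h1, h2⟩ := hN (fun n => c (α * d * n)) (S.erase (c a)) (by
        rw [Finset.card_erase_of_mem (h a ha (le_trans haM (le_max_left _ _)))]; omega) (by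
        intro n hn hnN
        refine Finset.mem_erase.2 ⟨hex n hn hnN, h _ (by positivity) ?_⟩
        refine le_trans ?_ (le_max_right _ _)
        exact Nat.mul_le_mul (Nat.mul_le_mul_left _ hdM) hnN)
      refine ⟨α * d * t, α * d * z, by positivity, by positivity, ?_, ?_⟩
      · rw [← h1]; congr 1; ring
      · rw [h2]; congr 1; ring

theorem brauer' (α β R : ℕ) (hα : 0 < α) (c : ℕ → Fin R) :
    ∃ t z : ℕ, 0 < t ∧ 0 < z ∧ c (α * t) = c z ∧ c z = c (z + β * t) := by
  obtain ⟨N, hN⟩ := brauer α β R hα R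
  exact hN c Finset.univ (by simp) (fun n _ _ => Finset.mem_univ _)

/-- last nonzero digit -/
theorem digit (q : ℕ) (hq : q.Prime) (n : ℕ) (hn : 0 < n) :
    ∃ n' : ℕ, n = q ^ (n.factorization q) * n' ∧ ((n' : ℕ) : ZMod q) ≠ 0 ∧
      n' = n / q ^ (n.factorization q) := by
  refine ⟨n / q ^ (n.factorization q), (Nat.ordProj_mul_ordCompl_eq_self n q).symm, ?_, rfl⟩
  rw [Ne, ZMod.natCast_eq_zero_iff]
  exact Nat.not_dvd_ordCompl hq hn.ne'


theorem linear_neg (c : ℤ) (h1 : c ≠ 1) (h2 : c ≠ -1) (h3 : c ≠ -2) (h4 : c ≠ 0) :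
    ¬ ∀ (r : ℕ) (κ : ℕ → Fin r), ∃ x y z : ℕ, 0 < x ∧ 0 < y ∧ 0 < z ∧ κ x = κ y ∧ κ y = κ z ∧
      (x : ℤ) - 2 * (y : ℤ) = c * (z : ℤ) := by
  intro hall
  obtain ⟨q, hqb, hq⟩ := Nat.exists_infinite_primes (c.natAbs + 4)
  have : Fact q.Prime := ⟨hq⟩
  obtain ⟨x, y, z, hx, hy, hz, hxy, hyz, heq⟩ := hall (Fintype.card (ZMod q))
    (fun n => Fintype.equivFin _ ((((n / q ^ (n.factorization q) : ℕ)) : ZMod q)))
  replace hxy := (Fintype.equivFin _).injective hxy
  replace hyz := (Fintype.equivFin _).injective hyz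
  obtain ⟨x', ex, nx, dx⟩ := digit q hq x hx
  obtain ⟨y', ey, ny, dy⟩ := digit q hq y hy
  obtain ⟨z', ez, nz, dz⟩ := digit q hq z hz
  rw [← dx, ← dy] at hxy
  rw [← dy, ← dz] at hyz
  set i := x.factorization q
  set j := y.factorization q
  set k := z.factorization q
  set m := min i (min j k) with hm
  obtain ⟨i1, hi⟩ : ∃ i1, i = m + i1 := ⟨i - m, by omega⟩
  obtain ⟨j1, hj⟩ : ∃ j1, j = m + j1 := ⟨j - m, by omega⟩
  obtain ⟨k1, hk⟩ : ∃ k1, k = m + k1 := ⟨k - m, by omega⟩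
  have hor : i1 = 0 ∨ j1 = 0 ∨ k1 = 0 := by omega
  have hq0 : ((q : ℤ) ^ m) ≠ 0 := pow_ne_zero _ (by exact_mod_cast hq.ne_zero)
  have e1 : (q : ℤ) ^ i1 * x' - 2 * ((q : ℤ) ^ j1 * y') = c * ((q : ℤ) ^ k1 * z') := by
    apply mul_left_cancel₀ hq0
    have hx2 : (x : ℤ) = (q : ℤ) ^ m * ((q : ℤ) ^ i1 * x') := by
      rw [ex, hi]; push_cast; ring
    have hy2 : (y : ℤ) = (q : ℤ) ^ m * ((q : ℤ) ^ j1 * y') := by
      rw [ey, hj]; push_cast; ring
    have hz2 : (z : ℤ) = (q : ℤ) ^ m * ((q : ℤ) ^ k1 * z') := by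
      rw [ez, hk]; push_cast; ring
    rw [hx2, hy2, hz2] at heq
    linear_combination heq
  have e2 := congrArg (fun t : ℤ => (t : ZMod q)) e1
  push_cast at e2
  rw [hxy, hyz] at e2
  have hqz : ((q : ℕ) : ZMod q) = 0 := ZMod.natCast_self q
  rw [hqz] at e2
  have key : ∀ t : ℕ, ((0 : ZMod q)) ^ t = (((if t = 0 then 1 else 0 : ℤ)) : ZMod q) := by
    intro t
    by_cases ht : t = 0
    · simp [ht]
    · simp [ht]
  rw [key, key, key] at e2
  set a : ℤ := if i1 = 0 then 1 else 0 with ha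
  set b : ℤ := if j1 = 0 then 1 else 0 with hb
  set d : ℤ := if k1 = 0 then 1 else 0 with hd
  have e3 : ((a - 2 * b - c * d : ℤ) : ZMod q) * (z' : ZMod q) = 0 := by
    push_cast
    linear_combination e2
  have e4 : ((a - 2 * b - c * d : ℤ) : ZMod q) = 0 := by
    rcases mul_eq_zero.1 e3 with h | h
    · exact h
    · exact absurd h nz
  rw [ZMod.intCast_zmod_eq_zero_iff_dvd] at e4
  have hab : |a - 2 * b - c * d| < q := by
    have q4 : |c| + 4 ≤ (q : ℤ) := by
      rw [Int.abs_eq_natAbs]; exact_mod_cast hqb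
    have hc := abs_nonneg c
    rcases abs_cases c with ⟨hc1, hc2⟩ | ⟨hc1, hc2⟩ <;>
    rw [abs_lt] <;> simp only [ha, hb, hd] <;> split_ifs <;> constructor <;> linarith
  have e5 : a - 2 * b - c * d = 0 := Int.eq_zero_of_abs_lt_dvd e4 hab
  simp only [ha, hb, hd] at e5
  split_ifs at e5 <;> first | omega | (exfalso; omega)

theorem zero_neg :
    ¬ ∀ (r : ℕ) (κ : ℕ → Fin r), ∃ x y z : ℕ, 0 < x ∧ 0 < y ∧ 0 < z ∧ κ x = κ y ∧ κ y = κ z ∧
      (x : ℤ) - 2 * (y : ℤ) = 0 * (z : ℤ) := by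
  intro hall
  obtain ⟨x, y, z, hx, hy, hz, hxy, hyz, heq⟩ := hall (Fintype.card (ZMod 2))
    (fun n => Fintype.equivFin _ (((n.factorization 2 : ℕ)) : ZMod 2))
  have hxy := (Fintype.equivFin _).injective hxy
  have e : x = 2 * y := by
    have : (x : ℤ) = 2 * y := by linarith
    exact_mod_cast this
  rw [e, Nat.factorization_mul (by norm_num) hy.ne'] at hxy
  simp [Nat.Prime.factorization Nat.prime_two] at hxy

theorem main_ge_two (p : ℤ[X]) (hp : 2 ≤ p.natDegree) :
    PartitionRegular p ↔ ∃ n : ℕ, 0 < n ∧ p.eval (n : ℤ) = -(n : ℤ) := by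
  constructor
  · intro hPR
    by_contra hno
    push Not at hno
    obtain ⟨Z, hZ3, hZ⟩ := bounds p hp
    set K : ℕ := ⌈Real.log ((p.natDegree : ℝ) + 2) / β⌉₊ with hKdef
    have hK : Real.log ((p.natDegree : ℝ) + 2) / β ≤ K := Nat.le_ceil _
    let κ : ℕ → Fin (Z + 1) × ZMod (4 + 1) × ZMod (K + 1) := fun n =>
      (⟨min n Z, by omega⟩, ((⌊Real.log (n : ℝ) / β⌋ : ℤ) : ZMod (4 + 1)),
        ((⌊Real.log (Real.log (n : ℝ)) / β⌋ : ℤ) : ZMod (K + 1)))
    obtain ⟨x, y, z, hx, hy, hz, hxy, hyz, heq⟩ :=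
      hPR (Fintype.card (Fin (Z + 1) × ZMod (4 + 1) × ZMod (K + 1)))
        (fun n => Fintype.equivFin _ (κ n))
    have hxy := (Fintype.equivFin _).injective hxy
    have hyz := (Fintype.equivFin _).injective hyz
    simp only [κ, Prod.mk.injEq, Fin.mk.injEq] at hxy hyz
    obtain ⟨a1, a2, a3⟩ := hxy
    obtain ⟨b1, b2, b3⟩ := hyz
    rcases lt_or_ge z Z with hlt | hge
    · have e1 : y = z := by omega
      have e2 : x = z := by omega
      subst e1
      subst e2
      apply hno x hz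
      rw [← heq]; ring
    · obtain ⟨c1, c2⟩ := hZ z hge
      have hx' : (0 : ℝ) < x := by exact_mod_cast hx
      have hy' : (0 : ℝ) < y := by exact_mod_cast hy
      have hz3 : (3 : ℝ) ≤ z := by exact_mod_cast le_trans hZ3 hge
      have hs : 0 < √(z : ℝ) := Real.sqrt_pos.2 (by linarith)
      have hpos : 0 < (z : ℝ) * √z := by positivity
      set w : ℝ := ((p.eval (z : ℤ) : ℤ) : ℝ) with hw
      have heq' : (x : ℝ) - 2 * y = w := by
        rw [hw, ← heq]; push_cast; ring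
      rcases lt_trichotomy w 0 with hneg | hzero | hpos'
      · rw [abs_of_neg hneg] at c1 c2
        rcases le_or_gt (-w) (x / 4) with h | h
        · exact ratio_ne (u := x) (v := y) hy' (by linarith) (by linarith) a2
        · exact loglog_ne hK (z := z) (u := y) hz3 (by linarith) (by linarith) b3
      · rw [hzero, abs_zero] at c1
        linarith
      · rw [abs_of_pos hpos'] at c1 c2
        rcases le_or_gt w (2 * y) with h | h
        · exact ratio_ne (u := x) (v := y) hy' (by linarith) (by linarith) a2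
        · exact loglog_ne hK (z := z) (u := x) hz3 (by linarith) (by linarith) (a3.trans b3)
  · rintro ⟨n, hn, he⟩ r c
    refine ⟨n, n, n, hn, hn, hn, rfl, rfl, ?_⟩
    rw [he]; ring


theorem linear_case (c : ℤ) : PartitionRegular (C c * X) ↔ c = 1 ∨ c = -1 ∨ c = -2 := by
  constructor
  · intro h
    by_contra hc
    push Not at hc
    obtain ⟨h1, h2, h3⟩ := hc
    have h' : ∀ (r : ℕ) (κ : ℕ → Fin r), ∃ x y z : ℕ, 0 < x ∧ 0 < y ∧ 0 < z ∧ κ x = κ y ∧
        κ y = κ z ∧ (x : ℤ) - 2 * (y : ℤ) = c * (z : ℤ) := by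
      intro r κ
      obtain ⟨x, y, z, a1, a2, a3, a4, a5, a6⟩ := h r κ
      refine ⟨x, y, z, a1, a2, a3, a4, a5, ?_⟩
      rw [a6]; simp
    by_cases h0 : c = 0
    · subst h0; exact zero_neg h'
    · exact linear_neg c h1 h2 h3 h0 h'
  · intro h r κ
    rcases h with rfl | rfl | rfl
    · obtain ⟨t, z, ht, hz, e1, e2⟩ := brauer' 1 2 r one_pos κ
      rw [one_mul] at e1
      refine ⟨z + 2 * t, t, z, by omega, ht, hz, by rw [e1, e2], e1, ?_⟩
      simp
    · refine ⟨1, 1, 1, one_pos, one_pos, one_pos, rfl, rfl, ?_⟩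
      simp
    · obtain ⟨t, z, ht, hz, e1, e2⟩ := brauer' 2 1 r two_pos κ
      rw [one_mul] at e2
      refine ⟨2 * t, z + t, z, by omega, by omega, hz, by rw [e1, e2], e2.symm, ?_⟩
      simp; ring

/-- **Complete answer.** -/
theorem result (p : ℤ[X]) (h0 : p.eval 0 = 0) :
    PartitionRegular p ↔
      p = X ∨ p = -2 * X ∨ ∃ n : ℕ, 0 < n ∧ p.eval (n : ℤ) = -(n : ℤ) := by
  rcases le_or_gt 2 p.natDegree with hp | hp
  · rw [main_ge_two p hp]
    constructor
    · exact fun h => Or.inr (Or.inr h)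
    · rintro (rfl | rfl | h)
      · rw [natDegree_X] at hp; omega
      · have : (-2 * X : ℤ[X]).natDegree ≤ 1 := by
          have : (-2 * X : ℤ[X]) = C (-2) * X := by simp
          rw [this]; exact (natDegree_C_mul_le _ _).trans natDegree_X_le
        omega
      · exact h
  · have e : p = C (p.coeff 1) * X := by
      have h1 := eq_X_add_C_of_natDegree_le_one (p := p) (by omega)
      rw [← coeff_zero_eq_eval_zero] at h0
      rw [h0, C_0, add_zero] at h1
      exact h1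
    set c := p.coeff 1 with hc
    rw [e, linear_case]
    have hX : (C c * X : ℤ[X]) = X ↔ c = 1 := by
      constructor
      · intro h
        have := congrArg (fun t : ℤ[X] => t.coeff 1) h
        simpa using this
      · rintro h; rw [h]; simp
    have h2X : (C c * X : ℤ[X]) = -2 * X ↔ c = -2 := by
      constructor
      · intro h
        have h' : (C c * X : ℤ[X]) = C (-2) * X := by rw [h]; simp
        have := congrArg (fun t : ℤ[X] => t.coeff 1) h'
        simpa using this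
      · rintro h; rw [h]; simp
    have hev : (∃ n : ℕ, 0 < n ∧ (C c * X : ℤ[X]).eval (n : ℤ) = -(n : ℤ)) ↔ c = -1 := by
      constructor
      · rintro ⟨n, hn, h⟩
        rw [eval_mul, eval_C, eval_X] at h
        have hn' : (n : ℤ) ≠ 0 := by exact_mod_cast hn.ne'
        apply mul_right_cancel₀ hn'
        rw [h]; ring
      · rintro h
        refine ⟨1, one_pos, ?_⟩
        rw [h]; simp
    rw [hX, h2X, hev]
    tauto

end Pool.Agent.Results.MP_0ef770_co.Classification
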